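import Pool.Agent.H70.NG.Main

/-!
# Nearly Gorenstein numerical semigroups with four generators

Let `S` be a nearly Gorenstein numerical semigroup with exactly four minimal generators which is
not almost symmetric.  If the type of `S` is two then the defining ideal of `k[S]` has four or
five minimal generators, and if the type is three it has six.  This answers Q1 in the affirmative.
-/

open scoped Pointwise

namespace Pool.Agent.Results.MP_cc5e36_al.NearlyGorensteinFour

/-- `S` is a numerical semigroup (a submonoid of `ℕ` with finite complement) and `n 0, …, n 3`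
are its minimal generators: they generate `S`, and no `n i` is in the submonoid generated by
the other three. -/
structure IsMinimallyGenerated (n : Fin 4 → ℕ) (S : AddSubmonoid ℕ) : Prop where
  finite_compl : ((S : Set ℕ)ᶜ).Finite
  closure_eq : AddSubmonoid.closure (Set.range n) = S
  minimal : ∀ i, n i ∉ AddSubmonoid.closure (n '' {i}ᶜ)

/-- `S` seen as a set of integers. -/
def toInt (S : AddSubmonoid ℕ) : Set ℤ := (fun x : ℕ => (x : ℤ)) '' (S : Set ℕ)

/-- `M = S \ {0}`. -/
def maxIdeal (S : AddSubmonoid ℕ) : Set ℤ := toInt S \ {0}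

/-- `F` is the Frobenius number of `S`, the largest integer not in `S`. -/
def IsFrobenius (S : AddSubmonoid ℕ) (F : ℤ) : Prop := IsGreatest (toInt S)ᶜ F

/-- The set of pseudo-Frobenius numbers `PF(S) = {f ∈ ℤ \ S : f + M ⊆ S}`. -/
def pseudoFrobenius (S : AddSubmonoid ℕ) : Set ℤ :=
  {f | f ∉ toInt S ∧ ∀ s ∈ maxIdeal S, f + s ∈ toInt S}

/-- The type of `S` is the number of pseudo-Frobenius numbers. -/
noncomputable def type (S : AddSubmonoid ℕ) : ℕ := (pseudoFrobenius S).ncard

/-- The standard canonical ideal `K = {x ∈ ℤ : F - x ∉ S}`, where `F` is the Frobenius number. -/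
def canonicalIdeal (S : AddSubmonoid ℕ) (F : ℤ) : Set ℤ := {x | F - x ∉ toInt S}

/-- `A - B = {x : x + B ⊆ A}`. -/
def colon (A B : Set ℤ) : Set ℤ := {x | ∀ b ∈ B, x + b ∈ A}

/-- `S` (with Frobenius number `F`) is almost symmetric: `K + M ⊆ M`. -/
def IsAlmostSymmetric (S : AddSubmonoid ℕ) (F : ℤ) : Prop :=
  canonicalIdeal S F + maxIdeal S ⊆ maxIdeal S

/-- `S` (with Frobenius number `F`) is nearly Gorenstein: `M ⊆ K + (S - K)`. -/
def IsNearlyGorenstein (S : AddSubmonoid ℕ) (F : ℤ) : Prop :=
  maxIdeal S ⊆ canonicalIdeal S F + colon (toInt S) (canonicalIdeal S F)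

/-- The defining ideal `I_S`: the kernel of `k[x_0, …, x_3] → k[t]`, `x_i ↦ t ^ (n i)`. -/
noncomputable def definingIdeal (k : Type*) [Field k] (n : Fin 4 → ℕ) :
    Ideal (MvPolynomial (Fin 4) k) :=
  RingHom.ker (MvPolynomial.aeval (fun i => (Polynomial.X : Polynomial k) ^ n i) :
    MvPolynomial (Fin 4) k →ₐ[k] Polynomial k)

/-- The minimal number of generators of an ideal: the least size of a finite generating set. -/
noncomputable def minNumGenerators {R : Type*} [CommRing R] (I : Ideal R) : ℕ :=
  sInf {r : ℕ | ∃ G : Finset R, Ideal.span (G : Set R) = I ∧ G.card = r}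

/-- Let `S` be a nearly Gorenstein numerical semigroup with four minimal generators
`n 0, …, n 3` that is not almost symmetric, and `k` a field.  If `t(S) = 2` then
`μ(I_S) ∈ {4, 5}`, and if `t(S) = 3` then `μ(I_S) = 6`. -/
theorem result (k : Type*) [Field k] (n : Fin 4 → ℕ) (S : AddSubmonoid ℕ) (F : ℤ)
    (hS : IsMinimallyGenerated n S) (hF : IsFrobenius S F) (hNG : IsNearlyGorenstein S F)
    (hAS : ¬ IsAlmostSymmetric S F) :
    (type S = 2 → minNumGenerators (definingIdeal k n) = 4 ∨
      minNumGenerators (definingIdeal k n) = 5) ∧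
    (type S = 3 → minNumGenerators (definingIdeal k n) = 6) :=
  H70NG.main k n S F ⟨hS.finite_compl, hS.closure_eq, hS.minimal⟩ hF hNG hAS

end Pool.Agent.Results.MP_cc5e36_al.NearlyGorensteinFour
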